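import Pool.Agent.Helper50.AY.St

/-!
# Project AY, module GT
-/

set_option autoImplicit false

namespace Pool.Agent.Helper30.AY

open Pool.Agent.Helper50.AY
open Pool.Agent.Helper43.GD (StP2 Fr)

/-- The generator test. -/
theorem hGT (hP2 : StP2) (hCMB2 : StCMB2) : StGT := by
  intro L A _ _ Q u σ hS hIn hN
  obtain ⟨c, hcU, hc⟩ := hIn
  have hσU : σ ∈ Q.U := hS.1
  have h1 : ((c⁻¹ * u⁻¹ : Lˣ) : L) * ((1 - (σ : L)) * u) = 1 := by
    rw [← hc, ← Units.val_mul, ← Units.val_mul, ← Units.val_one]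
    congr 1
    rw [mul_assoc, ← mul_assoc u⁻¹, mul_comm u⁻¹ c, mul_assoc c, inv_mul_cancel, mul_one,
      inv_mul_cancel]
  have h2 : Q.S (c⁻¹ * u⁻¹) σ := (hP2 L A Q u σ _ hσU h1).1 hS
  have h3 : Q.S u⁻¹ σ := (Q.S_smul_iff (Q.U.inv_mem hcU)).1 h2
  refine hCMB2 L A Q u σ σ hS h3 ?_ hN
  rw [← hc]
  exact c.isUnit.mul c.isUnit

end Pool.Agent.Helper30.AY
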